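import Mathlib

open Polynomial Filter Topology NumberField

namespace Pool.Agent.H9.Dyn

theorem norm_algEquiv (p : ℕ) [Fact p.Prime] (τ : PadicAlgCl p ≃ₐ[ℚ_[p]] PadicAlgCl p)
    (y : PadicAlgCl p) : ‖τ y‖ = ‖y‖ := by
  rw [← PadicAlgCl.spectralNorm_eq, ← PadicAlgCl.spectralNorm_eq]
  exact (spectralNorm_eq_of_equiv τ y).symm

theorem isIntegral_of_norm_le_one (p : ℕ) [Fact p.Prime] (y : PadicAlgCl p) (hy : ‖y‖ ≤ 1) :
    IsIntegral ℤ_[p] y := by
  have hint : IsIntegral ℚ_[p] y := Algebra.IsIntegral.isIntegral y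
  have hmon := minpoly.monic hint
  have h1 : ∀ n, ‖(minpoly ℚ_[p] y).coeff n‖ ≤ 1 := by
    rw [← spectralValue_le_one_iff hmon]
    exact hy
  have h2 : minpoly ℚ_[p] y ∈ lifts (algebraMap ℤ_[p] ℚ_[p]) := by
    rw [lifts_iff_coeff_lifts]
    intro n
    exact ⟨⟨_, h1 n⟩, rfl⟩
  obtain ⟨q, hq, -, hqm⟩ := lifts_and_natDegree_eq_and_monic h2 hmon
  refine ⟨q, hqm, ?_⟩
  have h3 : aeval y (minpoly ℚ_[p] y) = 0 := minpoly.aeval _ _
  rw [← hq, aeval_map_algebraMap] at h3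
  exact h3

theorem norm_le_one_of_isIntegral (p : ℕ) [Fact p.Prime] (y : PadicAlgCl p)
    (hy : IsIntegral ℤ_[p] y) : ‖y‖ ≤ 1 := by
  have h := minpoly.isIntegrallyClosed_eq_field_fractions' ℚ_[p] hy
  have hmon := minpoly.monic (Algebra.IsIntegral.isIntegral (R := ℚ_[p]) y)
  have : spectralValue (minpoly ℚ_[p] y) ≤ 1 := by
    rw [spectralValue_le_one_iff hmon]
    intro n
    rw [h, coeff_map]
    exact PadicInt.norm_le_one _
  exact this

theorem exists_frobenius (p : ℕ) [hp : Fact p.Prime] (S : Set (PadicAlgCl p)) (hS : S.Finite) :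
    ∃ τ : PadicAlgCl p ≃ₐ[ℚ_[p]] PadicAlgCl p,
      ∀ y ∈ IntermediateField.adjoin ℚ_[p] S, ‖y‖ ≤ 1 → ‖τ y - y ^ p‖ < 1 := by
  classical
  have : Finite S := hS
  have : FiniteDimensional ℚ_[p] (IntermediateField.adjoin ℚ_[p] S) :=
    IntermediateField.finiteDimensional_adjoin (fun x _ => Algebra.IsIntegral.isIntegral x)
  let M := IntermediateField.normalClosure ℚ_[p] (IntermediateField.adjoin ℚ_[p] S) (PadicAlgCl p)
  have hle : IntermediateField.adjoin ℚ_[p] S ≤ M := IntermediateField.le_normalClosure _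
  have hfd : FiniteDimensional ℚ_[p] M := normalClosure.is_finiteDimensional _ _ _
  have hnor : Normal ℚ_[p] M := normalClosure.normal _ _ _
  have hgal : IsGalois ℚ_[p] M := ⟨⟩
  let B := integralClosure ℤ_[p] M
  have hfrac : IsFractionRing B M := integralClosure.isFractionRing_of_finite_extension ℚ_[p] M
  let _ := IsIntegralClosure.MulSemiringAction ℤ_[p] ℚ_[p] M B
  have hinv : Algebra.IsInvariant ℤ_[p] B Gal(M/ℚ_[p]) :=
    Algebra.isInvariant_of_isGalois ℤ_[p] ℚ_[p] M B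
  have hfin : Module.Finite ℤ_[p] B := IsIntegralClosure.finite ℤ_[p] ℚ_[p] M B
  have hB : ∀ b : B, ‖((b : M) : PadicAlgCl p)‖ ≤ 1 := by
    intro b
    apply norm_le_one_of_isIntegral
    have h1 : IsIntegral ℤ_[p] (b : M) := b.2
    exact h1.map (IntermediateField.val M |>.restrictScalars ℤ_[p])
  let Q : Ideal B :=
    { carrier := {b | ‖((b : M) : PadicAlgCl p)‖ < 1}
      add_mem' := by
        intro a b ha hb
        simp only [Set.mem_ofPred_eq] at ha hb ⊢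
        refine lt_of_le_of_lt ?_ (max_lt ha hb)
        exact PadicAlgCl.isNonarchimedean p _ _
      zero_mem' := by simp
      smul_mem' := by
        intro c x hx
        simp only [Set.mem_ofPred_eq, smul_eq_mul] at hx ⊢
        have : (((c * x : B) : M) : PadicAlgCl p) = ((c : M) : PadicAlgCl p) * ((x : M) : PadicAlgCl p) := by
          simp
        rw [this, norm_mul]
        calc ‖((c : M) : PadicAlgCl p)‖ * ‖((x : M) : PadicAlgCl p)‖ ≤ 1 * ‖((x : M) : PadicAlgCl p)‖ := by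
              gcongr
              exact hB c
          _ < 1 := by simpa using hx }
  have hQmem : ∀ b : B, b ∈ Q ↔ ‖((b : M) : PadicAlgCl p)‖ < 1 := fun b => Iff.rfl
  have hQp : Q.IsPrime := by
    refine ⟨?_, ?_⟩
    · rw [Ideal.ne_top_iff_one, hQmem]
      simp
    · intro x y hxy
      rw [hQmem] at hxy
      by_contra hcon
      push Not at hcon
      obtain ⟨h1, h2⟩ := hcon
      rw [hQmem, not_lt] at h1 h2
      have : (((x * y : B) : M) : PadicAlgCl p) = ((x : M) : PadicAlgCl p) * ((y : M) : PadicAlgCl p) := by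
        simp
      rw [this, norm_mul] at hxy
      nlinarith [hB x, hB y]
  have hunder : Q.under ℤ_[p] = IsLocalRing.maximalIdeal ℤ_[p] := by
    ext z
    rw [Ideal.mem_comap, hQmem]
    have : (((algebraMap ℤ_[p] B z : B) : M) : PadicAlgCl p) = algebraMap ℚ_[p] (PadicAlgCl p) (z : ℚ_[p]) := by
      rfl
    rw [this, PadicAlgCl.norm_extends, IsLocalRing.mem_maximalIdeal, PadicInt.mem_nonunits]
    rfl
  have hcard : Nat.card (ℤ_[p] ⧸ Q.under ℤ_[p]) = p := by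
    rw [hunder]
    exact (Nat.card_congr (PadicInt.residueField (p := p)).toEquiv).trans (Nat.card_zmod p)
  have hfinP : Finite (ℤ_[p] ⧸ Q.under ℤ_[p]) := by
    apply Nat.finite_of_card_ne_zero
    rw [hcard]
    exact hp.out.ne_zero
  have hmf : Module.Finite (ℤ_[p] ⧸ Q.under ℤ_[p]) (B ⧸ Q) := inferInstance
  have hfinQ : Finite (B ⧸ Q) := Module.finite_of_finite (ℤ_[p] ⧸ Q.under ℤ_[p])
  have hcomm : SMulCommClass Gal(M/ℚ_[p]) ℤ_[p] B := by
    refine ⟨fun g r b => ?_⟩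
    change galRestrict ℤ_[p] ℚ_[p] M B g (r • b) = r • galRestrict ℤ_[p] ℚ_[p] M B g b
    exact map_smul _ r b
  obtain ⟨σ, hσ⟩ := IsArithFrobAt.exists_of_isInvariant ℤ_[p] Gal(M/ℚ_[p]) Q
  refine ⟨σ.liftNormal (PadicAlgCl p), ?_⟩
  intro y hy hy1
  have hyM : y ∈ M := hle hy
  have hyint : IsIntegral ℤ_[p] (⟨y, hyM⟩ : M) := by
    have h1 := isIntegral_of_norm_le_one p y hy1
    exact (isIntegral_algHom_iff (IntermediateField.val M |>.restrictScalars ℤ_[p])
      (fun a b hab => Subtype.ext hab)).mp h1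
  have h2 := hσ ⟨⟨y, hyM⟩, hyint⟩
  rw [hcard, hQmem] at h2
  have h3 : (σ.liftNormal (PadicAlgCl p)) y = ((σ ⟨y, hyM⟩ : M) : PadicAlgCl p) :=
    σ.liftNormal_commutes (PadicAlgCl p) ⟨y, hyM⟩
  rw [h3]
  have h4 := algebraMap_galRestrict_apply (K := ℚ_[p]) ℤ_[p] σ (⟨⟨y, hyM⟩, hyint⟩ : B)
  have h5 : ((MulSemiringAction.toAlgHom ℤ_[p] B σ) ⟨⟨y, hyM⟩, hyint⟩ : M) = σ ⟨y, hyM⟩ := h4
  have h6 : ((((MulSemiringAction.toAlgHom ℤ_[p] B σ) ⟨⟨y, hyM⟩, hyint⟩ - ⟨⟨y, hyM⟩, hyint⟩ ^ p : B) : M) : PadicAlgCl p)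
      = ((σ ⟨y, hyM⟩ : M) : PadicAlgCl p) - y ^ p := by
    rw [← h5]
    rfl
  rw [h6] at h2
  exact h2

end Pool.Agent.H9.Dyn
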